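import Pool.Agent.Lib.MP_3145b1_co.T.Tree

/-!
# An entropy-influence inequality for arbitrary decision trees

Let `f` be a boolean function (values `1` and `-1`) and let `T` be any decision tree; it does not
have to compute `f`. Let `Δ` be the average number of queries of `T`, and let `J` be the total
influence of `f` minus the average total influence of the restrictions of `f` at the leaves. Then
`0 ≤ J ≤ Δ` and `Ent(f) ≤ E Ent(f_leaf) + J (8 + log_2 (Δ / J))`. If `T` computes `f`, then
`Ent(f) ≤ I(f) (8 + log_2 (Δ / I(f)))`, and some Fourier coefficient has absolute value at least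
`2 ^ (- (I(f) / 2) (8 + log_2 (Δ / I(f))))`.
-/

set_option autoImplicit false

namespace Pool.Agent.Results.MP_3145b1_co.DecisionTree

open Finset Pool.Agent.MP3145b1 Pool.Agent.MP3145b1.F Pool.Agent.MP3145b1.T

theorem result : ∀ (n : ℕ) (f : (Fin n → Bool) → ℝ), (∀ x, f x = 1 ∨ f x = -1) →
    ∀ (T : DTree n) (Δ J : ℝ), Δ = mean (fun x => (queries T x : ℝ)) →
    J = influence f - mean (fun x => influence (leafFn T x f)) →
      0 ≤ J ∧ J ≤ Δ ∧
      specEntropy f ≤ mean (fun x => specEntropy (leafFn T x f)) +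
        J * (8 + Real.logb 2 (Δ / J)) ∧
      ((∀ x y, leafFn T x f y = f x) →
        specEntropy f ≤ influence f * (8 + Real.logb 2 (Δ / influence f)) ∧
        ∃ S : Finset (Fin n),
          (2 : ℝ) ^ (-(influence f / 2) * (8 + Real.logb 2 (Δ / influence f))) ≤ |coeff f S|) := by
  intro n f hf T Δ J hΔ hJ
  obtain ⟨h1, h2, h3⟩ := tree_main f hf T Δ J hΔ hJ
  refine ⟨h1, h2, h3, ?_⟩
  intro hc
  have h4 : ∀ x, specEntropy (leafFn T x f) = 0 ∧ influence (leafFn T x f) = 0 :=
    fun x => const_zero _ (f x) (hf x) (hc x)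
  have h5 : J = influence f := by
    rw [hJ]
    simp [h4, mean]
  have h6 : specEntropy f ≤ influence f * (8 + Real.logb 2 (Δ / influence f)) := by
    rw [h5] at h3
    simpa [h4, mean] using h3
  refine ⟨h6, ?_⟩
  obtain ⟨S, hS⟩ := fin_large f hf _ h6
  refine ⟨S, le_trans (le_of_eq ?_) hS⟩
  rw [Real.rpow_def_of_pos two_pos]
  congr 1
  ring

end Pool.Agent.Results.MP_3145b1_co.DecisionTree
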