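import Pool.Agent.Lib.MP_3145b1_co.F.Fin
import Pool.Agent.Lib.MP_3145b1_co.F.MainE
import Pool.Agent.Lib.MP_3145b1_co.F.Jn
import Pool.Agent.Lib.MP_3145b1_co.F.ExpB
import Pool.Agent.Lib.MP_3145b1_co.F.Sc
import Pool.Agent.Lib.MP_3145b1_co.F.Step
import Pool.Agent.Lib.MP_3145b1_co.F.Desc
import Pool.Agent.Lib.MP_3145b1_co.F.Ind
import Pool.Agent.Lib.MP_3145b1_co.F.LSum
import Pool.Agent.Lib.MP_3145b1_co.F.LTerm
import Pool.Agent.Lib.MP_3145b1_co.F.Cos
import Pool.Agent.Lib.MP_3145b1_co.F.First
import Pool.Agent.Lib.MP_3145b1_co.F.Nm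
import Pool.Agent.Lib.MP_3145b1_co.F.Un
import Pool.Agent.Lib.MP_3145b1_co.F.Prod
import Pool.Agent.Lib.MP_3145b1_co.F.Res
import Pool.Agent.Lib.MP_3145b1_co.F.PolB
import Pool.Agent.Lib.MP_3145b1_co.F.RM
import Pool.Agent.Lib.MP_3145b1_co.F.ResA
import Pool.Agent.Lib.MP_3145b1_co.F.MinA
import Pool.Agent.Lib.MP_3145b1_co.F.InfA
import Pool.Agent.Lib.MP_3145b1_co.F.CostA
import Pool.Agent.Lib.MP_3145b1_co.F.LP
import Pool.Agent.Lib.MP_3145b1_co.F.ResB
import Pool.Agent.Lib.MP_3145b1_co.F.MinB
import Pool.Agent.Lib.MP_3145b1_co.F.NormB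
import Pool.Agent.Lib.MP_3145b1_co.F.ShortB

/-!
# The Fourier entropy-influence inequality for depth-two formulas of bounded read

There is an absolute constant `C` such that `Ent(f) ≤ C (k^2 + d + 1) I(f)`, and hence
`max_S |f^(S)| ≥ exp (- C (k^2 + d + 1) I(f))`, if every variable occurs in at most `k` of the terms
(conjunctions of literals, of any width and with any signs) `t_1, ..., t_m` and

* `f` or `-f` is the OR of the terms (DNF formulas; by negation also CNF formulas), or
* `f` is the XOR of the terms and of a polynomial over the field with two elements of degree at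
  most `d` (on which there is no other condition).
-/

set_option autoImplicit false

namespace Pool.Agent.Results.MP_3145b1_co.DepthTwo

open Finset Pool.Agent.MP3145b1 Pool.Agent.MP3145b1.F

theorem result : ∃ C : ℝ, 0 < C ∧ ∀ (n m k d : ℕ) (M : Fin m → Finset (Fin n))
    (c : Fin m → Fin n → Bool) (f : (Fin n → Bool) → ℝ),
    (∀ i, (univ.filter fun j => i ∈ M j).card ≤ k) → (IsOr M c f ∨ IsXor d M c f) →
      specEntropy f ≤ C * (k ^ 2 + d + 1) * influence f ∧
        ∃ S : Finset (Fin n), Real.exp (-C * (k ^ 2 + d + 1) * influence f) ≤ |coeff f S| := by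
  have hRes := res
  have hPolB := polB
  have hLSum := lSum
  have hFirst := first cos
  have hProd := prod hLSum lTerm nm un
  have hLP := lp ind un
  have hDesc := desc (step sc)
  have hResB := resB hRes
  have hA : S_MainAe := mainAe jn hDesc hPolB (resA hRes hPolB) (minA hPolB)
    (infA hPolB (rm hPolB)) (costA hFirst hProd hLSum hRes ind)
  have hB : S_MainBe := mainBe jn hDesc hResB minB (infBe hLP ind un)
    (costBe hFirst (normB hLP hProd un) hLP hResB hLSum un) (shortB ind)
  exact fin_main hA hB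

end Pool.Agent.Results.MP_3145b1_co.DepthTwo
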