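import Pool.Agent.Lib.MP_3145b1_co.ZC.Asm

/-!
# The sharp entropy-influence inequality for read-once compositions

`RZ w s c` is the smallest class of functions with values `1`, `-1` which contains (leaf) all functions with the sharp entropy-influence inequality with the
constant `c`, (mom) all functions with `∑ |S| (|S| - 1) f^(S)^2 ≤ e^c (I(f) - Var f)` (in particular all functions of degree at most `e^c`; every Boolean function for a suitable `c`),
(her) all functions whose restrictions to subsets of each of `d ≤ e^c` blocks of variables satisfy the entropy-influence inequality with the constant `c`,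
and which is closed under negation and under gates with inputs of pairwise disjoint sets of variables:
(gen) gates with the inequality for the biases of the inputs, (arb) arbitrary gates of inputs with total variance at most `s`, (half) Boolean functions of `K` halfspaces,
(sym) functions which are symmetric in `e^c` classes of inputs, (tree) decision trees of rank at most `w - 2`, (prog) read-once branching programs of width `w`.
There is an absolute constant `C` such that every `f` in `RZ w s c` satisfies the sharp inequality with the constant `C (w + log (2 + s) + c)`; all halfspaces satisfy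
the entropy-influence inequality with the constant `C`.
-/

set_option autoImplicit false

namespace Pool.Agent.Results.MP_3145b1_co.EntropyComposition

open Finset Pool.Agent.MP3145b1 Pool.Agent.MP3145b1.RT Pool.Agent.MP3145b1.ZC

theorem result : ∃ C : ℝ, 0 < C ∧
    (∀ (N : ℕ) (a : Fin N → ℝ) (θ : ℝ), specEntropy (ltf a θ) ≤ C * influence (ltf a θ)) ∧
    ∀ w : ℕ, 1 ≤ w → ∀ s c : ℝ, 0 ≤ s → 0 ≤ c → ∀ (N : ℕ) (f : (Fin N → Bool) → ℝ), RZ w s c f →
      ∑ S ∈ (univ : Finset (Finset (Fin N))).erase ∅, coeff f S ^ 2 * Real.logb 2 (1 / coeff f S ^ 2) ≤
        C * (w + Real.log (2 + s) + c) * (influence f - (1 - coeff f ∅ ^ 2)) ∧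
      specEntropy f ≤ C * (w + Real.log (2 + s) + c) * influence f ∧
      ∃ S : Finset (Fin N), (2 : ℝ) ^ (-(C * (w + Real.log (2 + s) + c) * influence f / 2)) ≤ |coeff f S| :=
  ent_main

end Pool.Agent.Results.MP_3145b1_co.EntropyComposition
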