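import Pool.Agent.Lib.MP_3145b1_co.ZC.Asm

/-!
# The min-entropy-influence inequality for read-once compositions

`UZ w s c` is the smallest class of functions with values `1`, `-1` which contains (leaf) all functions with the min-entropy-influence inequality with the constant `c`,
(ptf) all polynomial threshold functions of degree `d` with `d^2 ≤ c`, and which is closed under negation and under gates with inputs of pairwise disjoint sets of variables:
(una) all unate gates, (dun) almost unate gates, (gen) gates with the entropy-influence inequality for the biases of the inputs, (arb) arbitrary gates of inputs with total variance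
at most `s`, (half) Boolean functions of `K` halfspaces, (sym) functions which are symmetric in `e^c` classes of inputs, (tree) decision trees of rank at most `w - 2`,
(prog) read-once branching programs of width `w`. There is an absolute constant `C` such that every `f` in `UZ w s c` satisfies the sharp min-entropy inequality with the constant
`C (w + log (2 + s) + c)`, so has a Fourier coefficient of absolute value at least `exp (- C (w + log (2 + s) + c) I(f))`.
-/

set_option autoImplicit false

namespace Pool.Agent.Results.MP_3145b1_co.MinEntropyComposition

open Finset Pool.Agent.MP3145b1 Pool.Agent.MP3145b1.ZC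

theorem result : ∃ C : ℝ, 0 < C ∧
    ∀ w : ℕ, 1 ≤ w → ∀ s c : ℝ, 0 ≤ s → 0 ≤ c → ∀ (N : ℕ) (f : (Fin N → Bool) → ℝ), UZ w s c f →
      (0 < 1 - coeff f ∅ ^ 2 → ∃ S : Finset (Fin N), S ≠ ∅ ∧ coeff f S ≠ 0 ∧
        (1 - coeff f ∅ ^ 2) * Real.log (1 / coeff f S ^ 2) ≤
          C * (w + Real.log (2 + s) + c) * (influence f - (1 - coeff f ∅ ^ 2))) ∧
      ∃ S : Finset (Fin N), Real.exp (-(C * (w + Real.log (2 + s) + c) * influence f)) ≤ |coeff f S| :=
  min_main

end Pool.Agent.Results.MP_3145b1_co.MinEntropyComposition
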